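import Pool.Agent.KS6_79.RK.K4c
import Pool.Graph.R_seed8.TH480.J677
import Pool.Graph.R_seed8.TH405.J653
import Pool.Graph.R_seed8.TH511.J678

/-!
The two cases of the threshold, in terms of the explicit condition `KW`.
-/

set_option autoImplicit false

namespace Pool.Agent.KS6_79.GT

open Finset
open Pool.Agent.TH477.PA
open Pool.Agent.TH480.J677 hiding ct_one le_choose

/-- the complete graph wins -/
theorem case_K (k s r : ℕ) (hk : 3 ≤ k) (hs : 3 ≤ s) (hsk : s ≤ k.choose 2) (hr : s ≤ r)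
    (hKW : KW k s r) : ∃ (ℓ : ℝ) (p : ℕ), Opt k (k.choose 2 + 1 - s) r ℓ ∧
        IsType k (k.choose 2 + 1 - s) r ℓ p ∧ p ≠ k - 1 ∧
        (((k - 1 : ℕ) : ℝ) * ℓ < Real.log r ∨ (((k - 1 : ℕ) : ℝ) * ℓ = Real.log r ∧ 2 ≤ p)) := by
  classical
    obtain ⟨D, hD⟩ : ∃ D, D = k.choose 2 + 1 - s := ⟨_, rfl⟩
    rw [← hD]
    have hD1 : 1 ≤ D := by omega
    have hDC : D + 2 ≤ k.choose 2 := by omega
    have hrD : k.choose 2 < r + D := by omega
    have hr3 : 3 ≤ r := by omega
    have hk1 : (0 : ℝ) < ((k - 1 : ℕ) : ℝ) := by exact_mod_cast (by omega : 0 < k - 1)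
    have hcts : ct k D 1 = s - 1 := by rw [ct_one]; omega
    have h1mem : 1 ∈ Adm k D := mem_Adm.2 ⟨by omega, le_rfl, Or.inl rfl⟩
    have htmem : k - 1 ∈ Adm k D := mem_Adm.2 ⟨by omega, by omega, Or.inr ⟨by omega, Or.inl rfl⟩⟩
    have hwt := w_top (r := r) hk hD1
    obtain ⟨p0, hp0, hmin⟩ := exists_min (D := D) (r := r) hk
    have hopt : Opt k D r (w k D r p0) := opt_of hk hD1 hDC hrD (w_pos hk hD1 hrD hr3 hp0) hmin
    have hw1 : w k D r 1 = Real.log r - Real.log ((s - 1 : ℕ) : ℝ) := by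
      rw [w, hcts, Nat.cast_one, div_one]
    -- cast of `k - 1` and `k - 2`
    have hk2 : ((k - 2 : ℕ) : ℝ) = ((k - 1 : ℕ) : ℝ) - 1 := by
      have : k - 1 = (k - 2) + 1 := by omega
      rw [this]
      push_cast
      ring
    have hmain : w k D r p0 < w k D r (k - 1) → ∃ (ℓ : ℝ) (p : ℕ), Opt k D r ℓ ∧
          IsType k D r ℓ p ∧ p ≠ k - 1 ∧
          (((k - 1 : ℕ) : ℝ) * ℓ < Real.log r ∨ (((k - 1 : ℕ) : ℝ) * ℓ = Real.log r ∧ 2 ≤ p)) := by
        intro h
        refine ⟨w k D r p0, p0, hopt, isType_iff.2 ⟨hp0, rfl⟩, ?_, Or.inl ?_⟩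
        · rintro rfl
          exact lt_irrefl _ h
        · rw [← hwt]
          exact mul_lt_mul_of_pos_left h hk1
    rcases hKW with h | h | ⟨p, c, h1, h2, h3, h4⟩
    · omega
    · apply hmain
      refine lt_of_le_of_lt (hmin 1 h1mem) ?_
      have h5 := log_pow_lt (by omega : 1 ≤ r) h
      rw [hk2] at h5
      have h6 : ((k - 1 : ℕ) : ℝ) * w k D r 1 < ((k - 1 : ℕ) : ℝ) * w k D r (k - 1) := by
        rw [hwt, hw1]
        nlinarith
      exact lt_of_mul_lt_mul_left h6 hk1.le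
    · have hp1 : p ≠ 1 := by omega
      have hct : ct k D p = c := by
        unfold ct
        rw [if_neg hp1]
        omega
      have hpm : p ∈ Adm k D := mem_Adm.2 ⟨by omega, by omega, Or.inr ⟨h1, Or.inr (by omega)⟩⟩
      have hpp : (0 : ℝ) < p := by exact_mod_cast (by omega : 0 < p)
      have h5 := log_pow_le (by omega : 1 ≤ r) h4
      have hkp : ((k - 1 - p : ℕ) : ℝ) = ((k - 1 : ℕ) : ℝ) - p := by
        rw [Nat.cast_sub (by omega)]
      rw [hkp] at h5
      have h6 : w k D r p ≤ w k D r (k - 1) := by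
        have h7 : (p : ℝ) * w k D r p = Real.log r - Real.log c := by
          rw [w, hct, mul_div_cancel₀ _ hpp.ne']
        have h8 : ((k - 1 : ℕ) : ℝ) * (p * w k D r p) ≤
            ((k - 1 : ℕ) : ℝ) * (p * w k D r (k - 1)) := by
          calc ((k - 1 : ℕ) : ℝ) * (p * w k D r p)
              = ((k - 1 : ℕ) : ℝ) * (Real.log r - Real.log c) := by rw [h7]
            _ ≤ p * Real.log r := by nlinarith
            _ = ((k - 1 : ℕ) : ℝ) * (p * w k D r (k - 1)) := by
                rw [← hwt]; ring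
        exact le_of_mul_le_mul_left (le_of_mul_le_mul_left h8 hk1) hpp
      rcases ((hmin p hpm).trans h6).lt_or_eq with h7 | h7
      · exact hmain h7
      · have h8 : w k D r p = w k D r p0 := le_antisymm (h6.trans h7.ge) (hmin p hpm)
        refine ⟨w k D r p0, p, hopt, isType_iff.2 ⟨hpm, h8⟩, by omega, Or.inr ⟨?_, by omega⟩⟩
        rw [h7, hwt]

/-- the Turan graph wins -/
theorem case_T (k s r : ℕ) (hk : 3 ≤ k) (hs : 3 ≤ s) (hsk : s ≤ k.choose 2) (hr : s ≤ r)
    (hK : ¬ KW k s r) : ∃ ℓ : ℝ, Opt k (k.choose 2 + 1 - s) r ℓ ∧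
        ((k - 1 : ℕ) : ℝ) * ℓ = Real.log r ∧
        ∀ p, IsType k (k.choose 2 + 1 - s) r ℓ p → p = 1 ∨ p = k - 1 := by
  classical
    obtain ⟨D, hD⟩ : ∃ D, D = k.choose 2 + 1 - s := ⟨_, rfl⟩
    unfold KW at hK
    rw [← hD] at hK
    rw [← hD]
    have hD1 : 1 ≤ D := by omega
    have hDC : D + 2 ≤ k.choose 2 := by omega
    have hrD : k.choose 2 < r + D := by omega
    have hr3 : 3 ≤ r := by omega
    have hk1 : (0 : ℝ) < ((k - 1 : ℕ) : ℝ) := by exact_mod_cast (by omega : 0 < k - 1)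
    have hcts : ct k D 1 = s - 1 := by rw [ct_one]; omega
    have h1mem : 1 ∈ Adm k D := mem_Adm.2 ⟨by omega, le_rfl, Or.inl rfl⟩
    have htmem : k - 1 ∈ Adm k D := mem_Adm.2 ⟨by omega, by omega, Or.inr ⟨by omega, Or.inl rfl⟩⟩
    have hwt := w_top (r := r) hk hD1
    have hw1 : w k D r 1 = Real.log r - Real.log ((s - 1 : ℕ) : ℝ) := by
      rw [w, hcts, Nat.cast_one, div_one]
    -- cast of `k - 1` and `k - 2`
    have hk2 : ((k - 2 : ℕ) : ℝ) = ((k - 1 : ℕ) : ℝ) - 1 := by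
      have : k - 1 = (k - 2) + 1 := by omega
      rw [this]
      push_cast
      ring
    push Not at hK
    obtain ⟨-, hK1, hK2⟩ := hK
    have hq : ∀ q ∈ Adm k D, q ≠ 1 → q ≠ k - 1 → w k D r (k - 1) < w k D r q := by
      intro q hq hq1 hqk
      have hq' := mem_Adm.1 hq
      have h1 : k ≤ 2 * q := by omega
      have h2 : 2 ≤ ct k D q := by
        rcases hq'.2.2 with h | ⟨_, h | h⟩
        · exact absurd h hq1
        · exact absurd h hqk
        · exact h
      have hct : ct k D q = k - q - D := by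
        unfold ct
        rw [if_neg hq1]
      have h3 := hK2 q (k - q - D) h1 (by omega) (by omega)
      have hpp : (0 : ℝ) < q := by exact_mod_cast (by omega : 0 < q)
      have h5 := log_pow_lt (by omega : 1 ≤ k - q - D) h3
      have hkp : ((k - 1 - q : ℕ) : ℝ) = ((k - 1 : ℕ) : ℝ) - q := by
        rw [Nat.cast_sub (by omega)]
      rw [hkp] at h5
      have h7 : (q : ℝ) * w k D r q = Real.log r - Real.log ((k - q - D : ℕ) : ℝ) := by
        rw [w, hct, mul_div_cancel₀ _ hpp.ne']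
      have h8 : ((k - 1 : ℕ) : ℝ) * (q * w k D r (k - 1)) <
          ((k - 1 : ℕ) : ℝ) * (q * w k D r q) := by
        calc ((k - 1 : ℕ) : ℝ) * (q * w k D r (k - 1)) = q * Real.log r := by
                rw [← hwt]; ring
          _ < ((k - 1 : ℕ) : ℝ) * (Real.log r - Real.log ((k - q - D : ℕ) : ℝ)) := by
                nlinarith
          _ = ((k - 1 : ℕ) : ℝ) * (q * w k D r q) := by rw [h7]
      exact lt_of_mul_lt_mul_left (lt_of_mul_lt_mul_left h8 hk1.le) hpp.le
    have h1w : w k D r (k - 1) ≤ w k D r 1 := by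
      have h5 := log_pow_le (by omega : 1 ≤ s - 1) hK1
      rw [hk2] at h5
      have h6 : ((k - 1 : ℕ) : ℝ) * w k D r (k - 1) ≤ ((k - 1 : ℕ) : ℝ) * w k D r 1 := by
        rw [hwt, hw1]
        nlinarith
      exact le_of_mul_le_mul_left h6 hk1
    have hmin' : ∀ q ∈ Adm k D, w k D r (k - 1) ≤ w k D r q := by
      intro q hqm
      by_cases hq1 : q = 1
      · rw [hq1]; exact h1w
      · by_cases hqk : q = k - 1
        · rw [hqk]
        · exact (hq q hqm hq1 hqk).le
    refine ⟨w k D r (k - 1), opt_of hk hD1 hDC hrD (w_pos hk hD1 hrD hr3 htmem) hmin', hwt, ?_⟩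
    intro p hp
    rw [isType_iff] at hp
    by_contra hcon
    rw [not_or] at hcon
    have := hq p hp.1 hcon.1 hcon.2
    rw [hp.2] at this
    exact lt_irrefl _ this

end Pool.Agent.KS6_79.GT
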