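import Pool.Agent.KS6_79.GT.Tur
import Pool.Graph.R_seed8.TH830.J654

/-!
The region where the complete graph wins.
-/

set_option autoImplicit false

namespace Pool.Agent.KS6_79.GT

open Finset
open Pool.Agent.TH477.PA
open Pool.Agent.KS6_79.RK
open Pool.Agent.TH480.J677 (KW)

/-- the colouring is perfect, of an optimal type other than `k - 1` -/
def PC {n r : ℕ} (k D : ℕ) (ℓ : ℝ) (G : SimpleGraph (Fin n)) (c : G.edgeSet → Fin r) : Prop :=
  ∃ (p : ℕ) (A : Finset (Fin r)), IsType k D r ℓ p ∧ p ≠ k - 1 ∧ A.card = ct k D p ∧ PerfC G p A c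

section

variable {k D r n : ℕ} {ℓ : ℝ}

theorem two_le_ct (hO : Opt k D r ℓ) {p : ℕ} (hp : IsType k D r ℓ p) (hpk : p ≠ k - 1) :
    2 ≤ ct k D p := by
  have hDC := hO.hDC
  rcases hp.2.2.1 with h | ⟨_, h | h⟩
  · rw [h]
    unfold ct
    rw [if_pos rfl]
    omega
  · exact absurd h hpk
  · exact h

theorem good_of_PC (hO : Opt k D r ℓ) (G : SimpleGraph (Fin n)) (c : G.edgeSet → Fin r)
    (h : PC k D ℓ G c) : GoodC k (k.choose 2 + 1 - D) G c := by
  classical
  obtain ⟨p, A, hp, hpk, hA, hc⟩ := h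
  have hr3 := hO.r3
  have hDC := hO.hDC
  obtain ⟨ψ, hψ⟩ : ∃ ψ : Sym2 (Fin n) → Fin r, ψ ∘ Subtype.val = c := by
    refine ⟨Function.extend Subtype.val c (fun _ => ⟨0, by omega⟩), ?_⟩
    exact Function.extend_comp Subtype.val_injective c _
  rw [← hψ, ← good_iff]
  rw [← hψ, ← perf_iff] at hc
  refine Pool.Agent.TH830.J654.good_of_perf k D r n (by omega) G ψ p A ?_ hc
  rcases Nat.lt_or_ge p 2 with h5 | h5
  · left
    have h6 : p = 1 := by have := hp.1; omega
    refine ⟨h6, ?_⟩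
    rw [hA, h6]
    unfold ct
    rw [if_pos rfl]
    omega
  · right
    rcases hp.2.2.1 with h7 | ⟨h7, h8 | h8⟩
    · omega
    · exact absurd h8 hpk
    · refine ⟨h5, h7, ?_⟩
      rw [hA]
      unfold ct at h8 ⊢
      rw [if_neg (by omega)] at h8 ⊢
      omega

open Classical in
/-- fill the missing edges with one colour -/
noncomputable def fill {n r : ℕ} (G : SimpleGraph (Fin n)) (c : G.edgeSet → Fin r) (a : Fin r) :
    (⊤ : SimpleGraph (Fin n)).edgeSet → Fin r :=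
  fun e => if h : (e : Sym2 (Fin n)) ∈ G.edgeSet then c ⟨e, h⟩ else a

theorem fill_of_mem {n r : ℕ} (G : SimpleGraph (Fin n)) (c : G.edgeSet → Fin r) (a : Fin r)
    (e : (⊤ : SimpleGraph (Fin n)).edgeSet) (h : (e : Sym2 (Fin n)) ∈ G.edgeSet) :
    fill G c a e = c ⟨e, h⟩ := by
  unfold fill
  rw [dif_pos h]

theorem fill_of_notMem {n r : ℕ} (G : SimpleGraph (Fin n)) (c : G.edgeSet → Fin r) (a : Fin r)
    (e : (⊤ : SimpleGraph (Fin n)).edgeSet) (h : (e : Sym2 (Fin n)) ∉ G.edgeSet) :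
    fill G c a e = a := by
  unfold fill
  rw [dif_neg h]

theorem double (hO : Opt k D r ℓ) (G : SimpleGraph (Fin n)) (hG : G ≠ ⊤) :
    2 * Nat.card {c : G.edgeSet → Fin r // PC k D ℓ G c} ≤
      Nat.card {c : (⊤ : SimpleGraph (Fin n)).edgeSet → Fin r // PC k D ℓ ⊤ c} := by
  classical
  -- a missing edge
  obtain ⟨e0, he0⟩ : ∃ e0 : (⊤ : SimpleGraph (Fin n)).edgeSet, (e0 : Sym2 (Fin n)) ∉ G.edgeSet := by
    have h1 := SimpleGraph.edgeSet_ssubset_edgeSet.2 (lt_top_iff_ne_top.2 hG)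
    obtain ⟨e, he, he'⟩ := Set.exists_of_ssubset h1
    exact ⟨⟨e, he⟩, he'⟩
  -- two colours for the missing edges
  have h2 : ∀ c : {c : G.edgeSet → Fin r // PC k D ℓ G c}, ∃ a : Bool → Fin r,
      a true ≠ a false ∧ ∀ b, PC k D ℓ ⊤ (fill G c.1 (a b)) := by
    rintro ⟨c, p, A, hp, hpk, hA, κ, hκ, hc⟩
    have hA2 := two_le_ct hO hp hpk
    rw [← hA] at hA2
    obtain ⟨x, hx, y, hy, hxy⟩ := Finset.one_lt_card.1 hA2
    refine ⟨fun b => if b then x else y, by simpa using hxy, fun b => ?_⟩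
    refine ⟨p, A, hp, hpk, hA, κ, hκ, fun u v huv h => ?_⟩
    by_cases hm : s(u, v) ∈ G.edgeSet
    · rw [fill_of_mem G c _ ⟨s(u, v), huv⟩ hm]
      exact hc u v hm h
    · rw [fill_of_notMem G c _ ⟨s(u, v), huv⟩ hm]
      cases b
      · exact hy
      · exact hx
  choose a ha ha' using h2
  have h3 : Nat.card ({c : G.edgeSet → Fin r // PC k D ℓ G c} × Bool) ≤
      Nat.card {c : (⊤ : SimpleGraph (Fin n)).edgeSet → Fin r // PC k D ℓ ⊤ c} := by
    apply Nat.card_le_card_of_injective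
      (fun q : {c : G.edgeSet → Fin r // PC k D ℓ G c} × Bool =>
        (⟨fill G q.1.1 (a q.1 q.2), ha' q.1 q.2⟩ :
          {c : (⊤ : SimpleGraph (Fin n)).edgeSet → Fin r // PC k D ℓ ⊤ c}))
    rintro ⟨c, b⟩ ⟨c', b'⟩ h
    have h4 : fill G c.1 (a c b) = fill G c'.1 (a c' b') := congrArg Subtype.val h
    have h5 : c = c' := by
      apply Subtype.ext
      funext e
      have h6 : (e : Sym2 (Fin n)) ∈ (⊤ : SimpleGraph (Fin n)).edgeSet :=
        SimpleGraph.edgeSet_mono le_top e.2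
      have h7 := congrFun h4 ⟨e, h6⟩
      rw [fill_of_mem G _ _ ⟨e, h6⟩ e.2, fill_of_mem G _ _ ⟨e, h6⟩ e.2] at h7
      exact h7
    subst h5
    have h6 := congrFun h4 e0
    rw [fill_of_notMem G _ _ e0 he0, fill_of_notMem G _ _ e0 he0] at h6
    have h7 : b = b' := by
      have h8 := ha c
      cases b <;> cases b' <;> first | rfl | exact absurd h6 h8 | exact absurd h6.symm h8
    rw [h7]
  rw [Nat.card_prod, Nat.card_eq_fintype_card (α := Bool), Fintype.card_bool] at h3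
  omega

end

theorem main_K {k s r : ℕ} (hk : 3 ≤ k) (hs : 3 ≤ s) (hsk : s ≤ k.choose 2) (hr : s ≤ r)
    (hK : KW k s r) :
    ∃ γ : ℝ, 0 < γ ∧ ∃ n0 : ℕ, ∀ n, n0 ≤ n →
      Fmax r k s n = F r k s (⊤ : SimpleGraph (Fin n)) ∧
      ∀ G : SimpleGraph (Fin n), G ≠ ⊤ → (F r k s G : ℝ) ≤
        (1 / 2 + Real.exp (-(γ * n))) * F r k s (⊤ : SimpleGraph (Fin n)) := by
  classical
  obtain ⟨ℓ, p0, hO, hp0, hp0k, hcond⟩ := case_K k s r hk hs hsk hr hK
  obtain ⟨D, hD⟩ : ∃ D, D = k.choose 2 + 1 - s := ⟨_, rfl⟩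
  rw [← hD] at hO hp0
  have hD1 : 1 ≤ D := by omega
  have hDs : k.choose 2 + 1 - D = s := by omega
  have hct0 : ct k D (k - 1) = 0 := by
    unfold ct
    rw [if_neg (by omega)]
    omega
  obtain ⟨γ0, hγ0, n1, H⟩ := typC k D r ℓ hO ⟨p0, hp0⟩
  rw [hDs] at H
  have hr0 : (0 : ℝ) < r := by exact_mod_cast (by omega : 0 < r)
  -- colourings of `(k-1)`-colourable graphs
  have hQ : ∃ γ1 : ℝ, 0 < γ1 ∧ ∃ n2 : ℕ, ∀ n, n2 ≤ n → ∀ G : SimpleGraph (Fin n),
      (Nat.card {c : G.edgeSet → Fin r // IsType k D r ℓ (k - 1) ∧ PerfC G (k - 1) ∅ c} : ℝ) ≤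
      Real.exp (-(γ1 * n)) * F r k s (⊤ : SimpleGraph (Fin n)) := by
    rcases hcond with hc | ⟨hc, hp2⟩
    · refine ⟨1, one_pos, 0, fun n _ G => ?_⟩
      have h3 : Nat.card {c : G.edgeSet → Fin r // IsType k D r ℓ (k - 1) ∧
          PerfC G (k - 1) ∅ c} = 0 := by
        rw [Nat.card_eq_zero]
        left
        constructor
        rintro ⟨c, hp, -⟩
        have h4 := hp.2.2.2
        rw [hct0, Nat.cast_zero, Real.log_zero, sub_zero] at h4
        exact hc.ne h4
      rw [h3, Nat.cast_zero]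
      positivity
    · obtain ⟨hT1, hT2, hT3, hT4⟩ := hp0
      have hct : ct k D p0 = k - p0 - D := by
        unfold ct
        rw [if_neg (by omega)]
      rw [hct] at hT3 hT4
      obtain ⟨hk2p, hcc⟩ : k ≤ 2 * p0 ∧ 2 ≤ k - p0 - D := by
        rcases hT3 with h | ⟨h1, h2 | h2⟩
        · omega
        · exact absurd h2 hp0k
        · exact ⟨h1, h2⟩
      obtain ⟨c, hcdef⟩ : ∃ c, c = k - p0 - D := ⟨_, rfl⟩
      rw [← hcdef] at hT4 hcc
      have hkc : k ≤ k.choose 2 := Pool.Agent.TH477.PA.le_choose hk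
      have hcr : c < r := by
        have := hO.hr
        omega
      obtain ⟨K, hKp, n2, hn2⟩ := Pool.Agent.TH405.J653.J14_lower_tie k D r p0 c hD1 hcc hcr hp2
        hk2p (by omega)
      rw [hDs] at hn2
      refine ⟨K, hKp, n2, fun n hn G => ?_⟩
      have hp0' : (0 : ℝ) < p0 := by exact_mod_cast (by omega : 0 < p0)
      have hℓ : (Real.log r - Real.log c) / p0 = ℓ := by
        rw [← hT4, mul_comm, mul_div_assoc, div_self hp0'.ne', mul_one]
      have h1 := hn2 n hn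
      rw [hℓ] at h1
      obtain ⟨L, hL⟩ : ∃ L : ℝ, L = Real.log r := ⟨_, rfl⟩
      have hLpos : 0 < L := by rw [hL]; exact hO.logpos
      rw [← hL] at h1 hc
      obtain ⟨u, hu⟩ : ∃ u, u = k - 1 := ⟨_, rfl⟩
      rw [← hu] at hc ⊢
      have hu0 : (0 : ℝ) < u := by exact_mod_cast (by omega : 0 < u)
      -- the Turan graph
      have h2 : (r : ℝ) ^ Nat.card (SimpleGraph.turanGraph n u).edgeSet ≤
          Real.exp ((L - ℓ) * (n : ℝ) ^ 2 / 2) := by
        have hpow : ∀ j : ℕ, (r : ℝ) ^ j = Real.exp (j * L) := by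
          intro j
          rw [Real.exp_nat_mul, hL, Real.exp_log hr0]
        rw [hpow]
        apply Real.exp_le_exp.2
        have h3 := Pool.Agent.TH511.J678.turan_upper u n
        have h4 : 2 * (u : ℝ) * (Nat.card (SimpleGraph.turanGraph n u).edgeSet : ℝ) ≤
            ((u : ℝ) - 1) * (n : ℝ) ^ 2 := by
          have : ((u - 1 : ℕ) : ℝ) = (u : ℝ) - 1 := by
            rw [Nat.cast_sub (by omega)]; simp
          rw [← this]
          exact_mod_cast h3
        have h5 : (u : ℝ) * (L - ℓ) = ((u : ℝ) - 1) * L := by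
          linarith
        have h6 : (u : ℝ) * ((Nat.card (SimpleGraph.turanGraph n u).edgeSet : ℝ) * L) ≤
            (u : ℝ) * ((L - ℓ) * (n : ℝ) ^ 2 / 2) := by
          have h7 := mul_le_mul_of_nonneg_right h4 hLpos.le
          have h8 : (u : ℝ) * ((L - ℓ) * (n : ℝ) ^ 2 / 2) =
              (((u : ℝ) - 1) * L) * (n : ℝ) ^ 2 / 2 := by
            rw [← h5]; ring
          rw [h8]
          linarith
        exact le_of_mul_le_mul_left h6 hu0
      have h3 : (Nat.card {c : G.edgeSet → Fin r // IsType k D r ℓ u ∧ PerfC G u ∅ c} : ℝ) ≤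
          (r : ℝ) ^ Nat.card (SimpleGraph.turanGraph n u).edgeSet := by
        by_cases hcol : G.Colorable u
        · have h4 : Nat.card {c : G.edgeSet → Fin r // IsType k D r ℓ u ∧ PerfC G u ∅ c} ≤
              Nat.card (G.edgeSet → Fin r) :=
            Nat.card_le_card_of_injective _ Subtype.val_injective
          rw [Nat.card_fun, Nat.card_eq_fintype_card (α := Fin r), Fintype.card_fin] at h4
          have h5 : G.CliqueFree (u + 1) := hcol.cliqueFree (by omega)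
          have h6 := (edge_le_turan (by omega : 0 < u) G h5).1
          exact_mod_cast h4.trans (Nat.pow_le_pow_right (by omega) h6)
        · have h4 : Nat.card {c : G.edgeSet → Fin r // IsType k D r ℓ u ∧ PerfC G u ∅ c} = 0 := by
            rw [Nat.card_eq_zero]
            left
            constructor
            rintro ⟨c, -, hp⟩
            exact hcol (perfC_col G c hp)
          rw [h4, Nat.cast_zero]
          positivity
      refine h3.trans (h2.trans ?_)
      have h4 := mul_le_mul_of_nonneg_left h1 (Real.exp_pos (-(K * n))).le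
      refine le_trans (le_of_eq ?_) h4
      rw [← Real.exp_add]
      congr 1
      ring
  obtain ⟨γ1, hγ1, n2, H2⟩ := hQ
  obtain ⟨γ, hγ, -, -, n3, H3⟩ := two_exp γ0 γ1 hγ0 hγ1
  obtain ⟨n4, H4⟩ := small_exp 4 γ hγ
  refine ⟨γ, hγ, max (max n1 n2) (max n3 n4), fun n hn => ?_⟩
  have hn1 : n1 ≤ n := ((le_max_left _ _).trans (le_max_left _ _)).trans hn
  have hn2 : n2 ≤ n := ((le_max_right _ _).trans (le_max_left _ _)).trans hn
  have hn3 : n3 ≤ n := ((le_max_left _ _).trans (le_max_right _ _)).trans hn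
  have hn4 : n4 ≤ n := ((le_max_right _ _).trans (le_max_right _ _)).trans hn
  have K3 := H3 n hn3
  have K4 := H4 n hn4
  have hx0 := Real.exp_pos (-(γ * n))
  have hTF : (F r k s (⊤ : SimpleGraph (Fin n)) : ℝ) ≤ (Fmax r k s n : ℝ) := by
    exact_mod_cast Pool.Agent.TH830.J644.F_le_Fmax r k s n _
  have hFm1 : (1 : ℝ) ≤ (Fmax r k s n : ℝ) := by
    exact_mod_cast Pool.Agent.TH830.J643.Fmax_pos r k s n (Or.inl (by omega))
  have hPtop : (Nat.card {c : (⊤ : SimpleGraph (Fin n)).edgeSet → Fin r // PC k D ℓ ⊤ c} : ℝ) ≤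
      F r k s (⊤ : SimpleGraph (Fin n)) := by
    have h1 : Nat.card {c : (⊤ : SimpleGraph (Fin n)).edgeSet → Fin r // PC k D ℓ ⊤ c} ≤
        Nat.card {c : (⊤ : SimpleGraph (Fin n)).edgeSet → Fin r // GoodC k s ⊤ c} := by
      apply RK.card_sub_le
      intro c hc
      have h2 := good_of_PC hO ⊤ c hc
      rwa [hDs] at h2
    rw [← Fgood] at h1
    exact_mod_cast h1
  have hnc : ∀ G : SimpleGraph (Fin n), G ≠ ⊤ → (F r k s G : ℝ) ≤
      Real.exp (-(γ0 * n)) * (Fmax r k s n : ℝ) + 1 / 2 * F r k s (⊤ : SimpleGraph (Fin n)) +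
        Real.exp (-(γ1 * n)) * F r k s (⊤ : SimpleGraph (Fin n)) := by
    intro G hG
    have h1 := H n hn1 G
    have h2 := H2 n hn2 G
    have h3 := card_split G (fun c => ∃ (p : ℕ) (A : Finset (Fin r)),
        IsType k D r ℓ p ∧ A.card = ct k D p ∧ PerfC G p A c) (fun c => GoodC k s G c)
    rw [← Fgood] at h3
    have h4 := card_split G (fun c => PC k D ℓ G c) (fun c => GoodC k s G c ∧
      ∃ (p : ℕ) (A : Finset (Fin r)), IsType k D r ℓ p ∧ A.card = ct k D p ∧ PerfC G p A c)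
    have h5 : Nat.card {c : G.edgeSet → Fin r // (GoodC k s G c ∧
        ∃ (p : ℕ) (A : Finset (Fin r)), IsType k D r ℓ p ∧ A.card = ct k D p ∧ PerfC G p A c) ∧
        ¬ PC k D ℓ G c} ≤
        Nat.card {c : G.edgeSet → Fin r // IsType k D r ℓ (k - 1) ∧ PerfC G (k - 1) ∅ c} := by
      apply RK.card_sub_le
      rintro c ⟨⟨-, p, A, hp, hA, hc⟩, hn⟩
      have hpk : p = k - 1 := by
        by_contra hpk
        exact hn ⟨p, A, hp, hpk, hA, hc⟩
      subst hpk
      rw [hct0, Finset.card_eq_zero] at hA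
      subst hA
      exact ⟨hp, hc⟩
    have h6 : Nat.card {c : G.edgeSet → Fin r // (GoodC k s G c ∧
        ∃ (p : ℕ) (A : Finset (Fin r)), IsType k D r ℓ p ∧ A.card = ct k D p ∧ PerfC G p A c) ∧
        PC k D ℓ G c} ≤ Nat.card {c : G.edgeSet → Fin r // PC k D ℓ G c} :=
      RK.card_sub_le fun c hc => hc.2
    have h7 := double hO G hG
    have h8 : F r k s G ≤ Nat.card {c : G.edgeSet → Fin r // GoodC k s G c ∧
        ¬ ∃ (p : ℕ) (A : Finset (Fin r)), IsType k D r ℓ p ∧ A.card = ct k D p ∧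
          PerfC G p A c} +
        (Nat.card {c : G.edgeSet → Fin r // IsType k D r ℓ (k - 1) ∧ PerfC G (k - 1) ∅ c} +
          Nat.card {c : G.edgeSet → Fin r // PC k D ℓ G c}) := by
      omega
    have h9 : (F r k s G : ℝ) ≤ (Nat.card {c : G.edgeSet → Fin r // GoodC k s G c ∧
        ¬ ∃ (p : ℕ) (A : Finset (Fin r)), IsType k D r ℓ p ∧ A.card = ct k D p ∧
          PerfC G p A c} : ℝ) +
        ((Nat.card {c : G.edgeSet → Fin r // IsType k D r ℓ (k - 1) ∧
          PerfC G (k - 1) ∅ c} : ℝ) +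
          (Nat.card {c : G.edgeSet → Fin r // PC k D ℓ G c} : ℝ)) := by exact_mod_cast h8
    have h10 : 2 * (Nat.card {c : G.edgeSet → Fin r // PC k D ℓ G c} : ℝ) ≤
      (Nat.card {c : (⊤ : SimpleGraph (Fin n)).edgeSet → Fin r // PC k D ℓ ⊤ c} : ℝ) := by
      exact_mod_cast h7
    linarith
  -- the maximum
  have hmax : Fmax r k s n = F r k s (⊤ : SimpleGraph (Fin n)) := by
    apply le_antisymm _ (Pool.Agent.TH830.J644.F_le_Fmax r k s n _)
    obtain ⟨G0, hG0⟩ := Pool.Agent.TH830.J643.exists_Fmax r k s n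
    rw [← hG0]
    by_cases h : G0 = ⊤
    · rw [h]
    · exfalso
      have h1 := hnc G0 h
      rw [hG0] at h1
      have h2 : Real.exp (-(γ1 * n)) * (F r k s (⊤ : SimpleGraph (Fin n)) : ℝ) ≤
          Real.exp (-(γ1 * n)) * (Fmax r k s n : ℝ) :=
        mul_le_mul_of_nonneg_left hTF (Real.exp_pos _).le
      have h6 := mul_le_mul_of_nonneg_right K3 (by linarith : (0 : ℝ) ≤ (Fmax r k s n : ℝ))
      rw [add_mul] at h6
      nlinarith
  refine ⟨hmax, fun G hG => ?_⟩
  have h1 := hnc G hG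
  rw [hmax] at h1
  have h6 := mul_le_mul_of_nonneg_right K3
    (Nat.cast_nonneg (F r k s (⊤ : SimpleGraph (Fin n))) : (0 : ℝ) ≤ _)
  rw [add_mul] at h6
  linarith

end Pool.Agent.KS6_79.GT
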