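import Pool.Agent.KS6_79.GT.Cases

/-!
The region where the Turan graph wins.
-/

set_option autoImplicit false

namespace Pool.Agent.KS6_79.GT

open Finset
open Pool.Agent.TH477.PA
open Pool.Agent.KS6_79.RK
open Pool.Agent.TH480.J677 (KW)

theorem edge_le_turan {n u : ℕ} (hu : 0 < u) (G : SimpleGraph (Fin n)) (h : G.CliqueFree (u + 1)) :
    Nat.card G.edgeSet ≤ Nat.card (SimpleGraph.turanGraph n u).edgeSet ∧
      (¬ Nonempty (G ≃g SimpleGraph.turanGraph n u) →
        Nat.card G.edgeSet + 1 ≤ Nat.card (SimpleGraph.turanGraph n u).edgeSet) := by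
  classical
  have hT := SimpleGraph.isTuranMaximal_turanGraph (n := n) (r := u) hu
  have h1 := hT.2 h
  have e : ∀ (H : SimpleGraph (Fin n)) [Fintype H.edgeSet],
      H.edgeFinset.card = Nat.card H.edgeSet := by
    intro H _
    rw [SimpleGraph.edgeFinset_card, Nat.card_eq_fintype_card]
  have h2 : Nat.card G.edgeSet ≤ Nat.card (SimpleGraph.turanGraph n u).edgeSet := by
    rw [← e, ← e]
    exact h1
  refine ⟨h2, fun hne => ?_⟩
  rcases Nat.lt_or_ge (Nat.card G.edgeSet)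
    (Nat.card (SimpleGraph.turanGraph n u).edgeSet) with h3 | h3
  · exact h3
  · exfalso
    apply hne
    have h4 := SimpleGraph.isTuranMaximal_iff_nonempty_iso_turanGraph (G := G) (r := u) hu
    rw [Fintype.card_fin] at h4
    rw [← h4]
    refine ⟨h, ?_⟩
    intro H _ hH
    have h5 := hT.2 hH
    rw [e, e] at h5
    rw [e, e]
    exact h5.trans h3

theorem colorable_free {n k : ℕ} (hk : 1 ≤ k) {G : SimpleGraph (Fin n)} (h : G.Colorable (k - 1)) :
    G.CliqueFree k := h.cliqueFree (by omega)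

theorem perfC_col {n r p : ℕ} (G : SimpleGraph (Fin n)) (c : G.edgeSet → Fin r)
    (h : PerfC G p ∅ c) : G.Colorable p := by
  obtain ⟨κ, h1, h2⟩ := h
  refine ⟨SimpleGraph.Coloring.mk (fun x => (⟨κ x, h1 x⟩ : Fin p)) ?_⟩
  intro x y hxy heq
  have := h2 x y hxy (congrArg Fin.val heq)
  exact absurd this (Finset.notMem_empty _)

theorem two_exp (a b : ℝ) (ha : 0 < a) (hb : 0 < b) : ∃ γ : ℝ, 0 < γ ∧ γ ≤ a ∧ γ ≤ b ∧
    ∃ n0 : ℕ, ∀ n : ℕ, n0 ≤ n →
    Real.exp (-(a * n)) + Real.exp (-(b * n)) ≤ Real.exp (-(γ * n)) := by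
  obtain ⟨m, hm⟩ : ∃ m : ℝ, m = min a b := ⟨_, rfl⟩
  have hm0 : 0 < m := by rw [hm]; exact lt_min ha hb
  have hma : m ≤ a := by rw [hm]; exact min_le_left _ _
  have hmb : m ≤ b := by rw [hm]; exact min_le_right _ _
  obtain ⟨n0, H⟩ := small_exp 2 (m / 2) (by linarith)
  refine ⟨m / 2, by linarith, by linarith, by linarith, n0, fun n hn => ?_⟩
  have h1 := H n hn
  have hn0 : (0 : ℝ) ≤ n := Nat.cast_nonneg n
  have h2 : Real.exp (-(a * n)) ≤ Real.exp (-(m * n)) := Real.exp_le_exp.2 (by nlinarith)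
  have h3 : Real.exp (-(b * n)) ≤ Real.exp (-(m * n)) := Real.exp_le_exp.2 (by nlinarith)
  have h4 : Real.exp (-(m * n)) = Real.exp (-(m / 2 * n)) * Real.exp (-(m / 2 * n)) := by
    rw [← Real.exp_add]; congr 1; ring
  have h5 := Real.exp_pos (-(m / 2 * n))
  nlinarith

/-- the comparison in the case of a tie between `K_n` with `s - 1` colours and the Turan graph -/
theorem tie_num (u r m : ℕ) (hu : 2 ≤ u) (hm : 2 ≤ m) (C : ℝ) (hC : 0 < C) (hr : 2 ≤ r)
    (h : (1 - 1 / (u : ℝ)) * Real.log r = Real.log m) :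
    ∃ γ : ℝ, 0 < γ ∧ ∃ n0 : ℕ, ∀ n : ℕ, n0 ≤ n →
      C * (m : ℝ) ^ n.choose 2 ≤ Real.exp (-(γ * n)) *
        (r : ℝ) ^ Nat.card (SimpleGraph.turanGraph n u).edgeSet := by
  have hm0 : (0 : ℝ) < m := by exact_mod_cast (by omega : 0 < m)
  have hr0 : (0 : ℝ) < r := by exact_mod_cast (by omega : 0 < r)
  obtain ⟨M, hM⟩ : ∃ M : ℝ, M = Real.log m := ⟨_, rfl⟩
  obtain ⟨L, hL⟩ : ∃ L : ℝ, L = Real.log r := ⟨_, rfl⟩
  have hM0 : 0 < M := by rw [hM]; exact Real.log_pos (by exact_mod_cast (by omega : 1 < m))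
  have hL0 : 0 < L := by rw [hL]; exact Real.log_pos (by exact_mod_cast (by omega : 1 < r))
  obtain ⟨K, hK⟩ : ∃ K : ℝ, K = |Real.log C| + L * ((u : ℝ) ^ 2 + 2) / 2 := ⟨_, rfl⟩
  refine ⟨M / 4, by linarith, ⌈4 * K / M⌉₊, fun n hn => ?_⟩
  have h1 : 4 * K / M ≤ n := (Nat.le_ceil _).trans (by exact_mod_cast hn)
  rw [div_le_iff₀ hM0] at h1
  have h8 := Pool.Agent.TH511.J678.turan_lower u n (by omega)
  obtain ⟨e, he⟩ : ∃ e : ℕ, e = Nat.card (SimpleGraph.turanGraph n u).edgeSet := ⟨_, rfl⟩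
  rw [← he] at h8 ⊢
  have h9 : (((n.choose 2 : ℕ)) : ℝ) = ((n : ℝ) ^ 2 - n) / 2 := by
    rw [Nat.cast_choose_two]; ring
  rw [← hM, ← hL] at h
  have h11 := mul_le_mul_of_nonneg_right h8 hL0.le
  have h12 : ((1 - 1 / (u : ℝ)) * (n : ℝ) ^ 2 - ((u : ℝ) ^ 2 + 2)) * L =
      M * (n : ℝ) ^ 2 - L * ((u : ℝ) ^ 2 + 2) := by
    rw [← h]; ring
  rw [h12] at h11
  have e1 : C * (m : ℝ) ^ n.choose 2 = Real.exp (Real.log C + M * (((n.choose 2 : ℕ)) : ℝ)) := by
    rw [Real.exp_add, Real.exp_log hC, mul_comm M, Real.exp_nat_mul, hM, Real.exp_log hm0]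
  have e2 : Real.exp (-(M / 4 * n)) * (r : ℝ) ^ e = Real.exp (-(M / 4 * n) + L * e) := by
    rw [Real.exp_add, mul_comm L, Real.exp_nat_mul, hL, Real.exp_log hr0]
  rw [e1, e2, h9]
  apply Real.exp_le_exp.2
  have h13 := le_abs_self (Real.log C)
  nlinarith

section

variable {k s r : ℕ}

theorem Fgood {n : ℕ} (G : SimpleGraph (Fin n)) :
    F r k s G = Nat.card {c : G.edgeSet → Fin r // GoodC k s G c} := rfl

/-- splitting the colourings of `G` by their structure -/
theorem card_split {n : ℕ} (G : SimpleGraph (Fin n)) (P N : (G.edgeSet → Fin r) → Prop) :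
    Nat.card {c : G.edgeSet → Fin r // N c} ≤
      Nat.card {c : G.edgeSet → Fin r // N c ∧ ¬ P c} +
      Nat.card {c : G.edgeSet → Fin r // N c ∧ P c} := by
  classical
  rw [natCard_filter, natCard_filter, natCard_filter]
  refine (card_le_card ?_).trans (card_union_le _ _)
  intro c hc
  rw [mem_filter] at hc
  rw [mem_union, mem_filter, mem_filter]
  by_cases h : P c
  · exact Or.inr ⟨mem_univ _, hc.2, h⟩
  · exact Or.inl ⟨mem_univ _, hc.2, h⟩

theorem main_T (hk : 3 ≤ k) (hs : 3 ≤ s) (hsk : s ≤ k.choose 2) (hr : s ≤ r)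
    (hK : ¬ KW k s r) :
    ∃ γ : ℝ, 0 < γ ∧ ∃ n0 : ℕ, ∀ n, n0 ≤ n → ∀ G : SimpleGraph (Fin n),
      (¬ G.Colorable (k - 1) → (F r k s G : ℝ) ≤
        Real.exp (-(γ * n)) * F r k s (SimpleGraph.turanGraph n (k - 1))) ∧
      (¬ Nonempty (G ≃g SimpleGraph.turanGraph n (k - 1)) →
        r * F r k s G ≤ F r k s (SimpleGraph.turanGraph n (k - 1))) := by
  classical
  obtain ⟨ℓ, hO, hℓ, htypes⟩ := case_T k s r hk hs hsk hr hK
  obtain ⟨D, hD⟩ : ∃ D, D = k.choose 2 + 1 - s := ⟨_, rfl⟩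
  rw [← hD] at hO htypes
  have hD1 : 1 ≤ D := by omega
  have hDs : k.choose 2 + 1 - D = s := by omega
  have hct0 : ct k D (k - 1) = 0 := by
    unfold ct
    rw [if_neg (by omega)]
    omega
  have hTk : IsType k D r ℓ (k - 1) := by
    refine ⟨by omega, le_refl _, Or.inr ⟨by omega, Or.inl rfl⟩, ?_⟩
    rw [hct0, Nat.cast_zero, Real.log_zero, sub_zero]
    exact hℓ
  obtain ⟨γ0, hγ0, n1, H⟩ := typC k D r ℓ hO ⟨k - 1, hTk⟩
  rw [hDs] at H
  obtain ⟨C, hC⟩ : ∃ C : ℝ, C = (r.choose (s - 1) : ℝ) := ⟨_, rfl⟩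
  have hC0 : 0 < C := by
    rw [hC]
    exact_mod_cast Nat.choose_pos (by omega)
  have hF : ∀ n, F r k s (SimpleGraph.turanGraph n (k - 1)) =
      r ^ Nat.card (SimpleGraph.turanGraph n (k - 1)).edgeSet := fun n =>
    Pool.Agent.TH511.J655.J15_turan_value k s r n hk
  -- perfect colourings of graphs which are not colourable
  have hP : ∃ γ1 : ℝ, 0 < γ1 ∧ ∃ n2 : ℕ, ∀ n, n2 ≤ n → ∀ G : SimpleGraph (Fin n),
      ¬ G.Colorable (k - 1) →
      (Nat.card {c : G.edgeSet → Fin r // GoodC k s G c ∧ ∃ (p : ℕ) (A : Finset (Fin r)),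
        IsType k D r ℓ p ∧ A.card = ct k D p ∧ PerfC G p A c} : ℝ) ≤
      Real.exp (-(γ1 * n)) * F r k s (SimpleGraph.turanGraph n (k - 1)) := by
    by_cases h1 : IsType k D r ℓ 1
    · have hct1 : ct k D 1 = s - 1 := by
        unfold ct
        rw [if_pos rfl]
        omega
      have hlog : (1 - 1 / ((k - 1 : ℕ) : ℝ)) * Real.log r = Real.log ((s - 1 : ℕ) : ℝ) := by
        have h2 := h1.2.2.2
        rw [hct1, Nat.cast_one, one_mul] at h2
        have hk0 : (0 : ℝ) < ((k - 1 : ℕ) : ℝ) := by exact_mod_cast (by omega : 0 < k - 1)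
        have h3 : Real.log r / ((k - 1 : ℕ) : ℝ) = ℓ := by
          rw [div_eq_iff hk0.ne']
          linarith
        have e1 : (1 - 1 / ((k - 1 : ℕ) : ℝ)) * Real.log r =
          Real.log r - Real.log r / ((k - 1 : ℕ) : ℝ) := by ring
        rw [e1, h3]
        linarith
      obtain ⟨γ1, hγ1, n2, H2⟩ := tie_num (k - 1) r (s - 1) (by omega) (by omega) C hC0
        (by omega) hlog
      refine ⟨γ1, hγ1, n2, fun n hn G hG => ?_⟩
      rw [hF]
      push_cast
      refine le_trans ?_ (H2 n hn)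
      have h3 : Nat.card {c : G.edgeSet → Fin r // GoodC k s G c ∧
          ∃ (p : ℕ) (A : Finset (Fin r)), IsType k D r ℓ p ∧ A.card = ct k D p ∧ PerfC G p A c} ≤
          Nat.card {c : G.edgeSet → Fin r // (Set.range c).ncard ≤ s - 1} := by
        apply RK.card_sub_le
        rintro c ⟨-, p, A, hp, hA, hc⟩
        rcases htypes p hp with rfl | rfl
        · rw [perfC_one] at hc
          have h4 : Set.range c ⊆ (A : Set (Fin r)) := by
            rintro _ ⟨e, rfl⟩
            exact hc e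
          have h5 := Set.ncard_le_ncard h4 (Set.toFinite _)
          rwa [Set.ncard_coe_finset, hA, hct1] at h5
        · rw [hct0, Finset.card_eq_zero] at hA
          subst hA
          exact absurd (perfC_col G c hc) hG
      have h4 := few_upper (E := G.edgeSet) (r := r) (s - 1) (by omega)
      rw [← Nat.card_eq_fintype_card (α := G.edgeSet)] at h4
      have h5 : (s - 1) ^ Nat.card G.edgeSet ≤ (s - 1) ^ n.choose 2 :=
        Nat.pow_le_pow_right (by omega) (card_le_top G)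
      have h6 := h3.trans (h4.trans (Nat.mul_le_mul_left _ h5))
      rw [hC]
      exact_mod_cast h6
    · refine ⟨1, one_pos, 0, fun n _ G hG => ?_⟩
      have h3 : Nat.card {c : G.edgeSet → Fin r // GoodC k s G c ∧
          ∃ (p : ℕ) (A : Finset (Fin r)), IsType k D r ℓ p ∧ A.card = ct k D p ∧
            PerfC G p A c} = 0 := by
        rw [Nat.card_eq_zero]
        left
        constructor
        rintro ⟨c, -, p, A, hp, hA, hc⟩
        rcases htypes p hp with rfl | rfl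
        · exact h1 hp
        · rw [hct0, Finset.card_eq_zero] at hA
          subst hA
          exact absurd (perfC_col G c hc) hG
      rw [h3, Nat.cast_zero]
      positivity
  obtain ⟨γ1, hγ1, n2, H2⟩ := hP
  obtain ⟨γ, hγ, -, -, n3, H3⟩ := two_exp γ0 γ1 hγ0 hγ1
  obtain ⟨n4, H4⟩ := small_exp (r : ℝ) γ hγ
  refine ⟨γ, hγ, max (max n1 n2) (max n3 n4), fun n hn => ?_⟩
  have hn1 : n1 ≤ n := ((le_max_left _ _).trans (le_max_left _ _)).trans hn
  have hn2 : n2 ≤ n := ((le_max_right _ _).trans (le_max_left _ _)).trans hn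
  have hn3 : n3 ≤ n := ((le_max_left _ _).trans (le_max_right _ _)).trans hn
  have hn4 : n4 ≤ n := ((le_max_right _ _).trans (le_max_right _ _)).trans hn
  have K3 := H3 n hn3
  have K4 := H4 n hn4
  have hr3 : (3 : ℝ) ≤ r := by exact_mod_cast (by omega : 3 ≤ r)
  have hx0 := Real.exp_pos (-(γ * n))
  have hTF : (F r k s (SimpleGraph.turanGraph n (k - 1)) : ℝ) ≤ (Fmax r k s n : ℝ) := by
    exact_mod_cast Pool.Agent.TH830.J644.F_le_Fmax r k s n _
  have hFm1 : (1 : ℝ) ≤ (Fmax r k s n : ℝ) := by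
    exact_mod_cast Pool.Agent.TH830.J643.Fmax_pos r k s n (Or.inl (by omega))
  have hnc : ∀ G : SimpleGraph (Fin n), ¬ G.Colorable (k - 1) → (F r k s G : ℝ) ≤
      Real.exp (-(γ * n)) * (Fmax r k s n : ℝ) := by
    intro G hG
    have h1 := H n hn1 G
    have h2 := H2 n hn2 G hG
    have h3 := card_split G (fun c => ∃ (p : ℕ) (A : Finset (Fin r)),
        IsType k D r ℓ p ∧ A.card = ct k D p ∧ PerfC G p A c) (fun c => GoodC k s G c)
    rw [← Fgood] at h3
    have h4 : (F r k s G : ℝ) ≤ (Nat.card {c : G.edgeSet → Fin r // GoodC k s G c ∧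
        ¬ ∃ (p : ℕ) (A : Finset (Fin r)), IsType k D r ℓ p ∧ A.card = ct k D p ∧
          PerfC G p A c} : ℝ) + (Nat.card {c : G.edgeSet → Fin r // GoodC k s G c ∧
        ∃ (p : ℕ) (A : Finset (Fin r)), IsType k D r ℓ p ∧ A.card = ct k D p ∧
          PerfC G p A c} : ℝ) := by exact_mod_cast h3
    have h5 : Real.exp (-(γ1 * n)) * (F r k s (SimpleGraph.turanGraph n (k - 1)) : ℝ) ≤
        Real.exp (-(γ1 * n)) * (Fmax r k s n : ℝ) :=
      mul_le_mul_of_nonneg_left hTF (Real.exp_pos _).le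
    have h6 := mul_le_mul_of_nonneg_right K3 (by linarith : (0 : ℝ) ≤ (Fmax r k s n : ℝ))
    rw [add_mul] at h6
    linarith
  have hTfree : (SimpleGraph.turanGraph n (k - 1)).CliqueFree k := by
    have h1 := SimpleGraph.turanGraph_cliqueFree (n := n) (r := k - 1) (by omega)
    rwa [show k - 1 + 1 = k by omega] at h1
  have hfree : ∀ G : SimpleGraph (Fin n), G.Colorable (k - 1) →
      F r k s G = r ^ Nat.card G.edgeSet := fun G hG =>
    Pool.Agent.TH511.J655.F_eq_pow r k s G (colorable_free (by omega) hG)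
  have hedge : ∀ G : SimpleGraph (Fin n), G.Colorable (k - 1) →
      Nat.card G.edgeSet ≤ Nat.card (SimpleGraph.turanGraph n (k - 1)).edgeSet ∧
      (¬ Nonempty (G ≃g SimpleGraph.turanGraph n (k - 1)) →
        Nat.card G.edgeSet + 1 ≤ Nat.card (SimpleGraph.turanGraph n (k - 1)).edgeSet) := by
    intro G hG
    apply edge_le_turan (by omega)
    rw [show k - 1 + 1 = k by omega]
    exact colorable_free (by omega) hG
  -- the maximum
  have hmax : Fmax r k s n = F r k s (SimpleGraph.turanGraph n (k - 1)) := by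
    apply le_antisymm _ (Pool.Agent.TH830.J644.F_le_Fmax r k s n _)
    obtain ⟨G0, hG0⟩ := Pool.Agent.TH830.J643.exists_Fmax r k s n
    rw [← hG0]
    by_cases h : G0.Colorable (k - 1)
    · rw [hfree G0 h, hF]
      exact Nat.pow_le_pow_right (by omega) (hedge G0 h).1
    · exfalso
      have h1 := hnc G0 h
      rw [hG0] at h1
      nlinarith
  intro G
  have hA : ¬ G.Colorable (k - 1) → (F r k s G : ℝ) ≤
        Real.exp (-(γ * n)) * F r k s (SimpleGraph.turanGraph n (k - 1)) := by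
    intro h
    rw [← hmax]
    exact hnc G h
  refine ⟨hA, fun hne => ?_⟩
  by_cases h : G.Colorable (k - 1)
  · rw [hfree G h, hF, ← pow_succ']
    exact Nat.pow_le_pow_right (by omega) ((hedge G h).2 hne)
  · have h1 := hA h
    have h2 : (0 : ℝ) ≤ (F r k s (SimpleGraph.turanGraph n (k - 1)) : ℝ) := Nat.cast_nonneg _
    have h3 : (r : ℝ) * F r k s G ≤ F r k s (SimpleGraph.turanGraph n (k - 1)) := by
      calc (r : ℝ) * F r k s G ≤ r * (Real.exp (-(γ * n)) *
            F r k s (SimpleGraph.turanGraph n (k - 1))) :=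
            mul_le_mul_of_nonneg_left h1 (by linarith)
        _ = (r * Real.exp (-(γ * n))) * F r k s (SimpleGraph.turanGraph n (k - 1)) := by ring
        _ ≤ 1 * F r k s (SimpleGraph.turanGraph n (k - 1)) := mul_le_mul_of_nonneg_right K4 h2
        _ = _ := one_mul _
    exact_mod_cast h3

end

end Pool.Agent.KS6_79.GT
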